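import Pool.Agent.Lib.MP_a78e1f_lc.R.Iface
import Pool.Agent.Lib.MP_6d445e_gt.H22.Prlim
import Pool.Agent.Lib.MP_6d445e_gt.H97.Af

/-!
# PRXLIM: preservation of good pairs at limits
-/

universe u v w

open Cardinal Filter MeasureTheory

namespace Pool.Agent.Lib.MP_a78e1f_lc.H34

open Pool.Agent.Lib.MP_100a6c_lc
open Pool.Agent.Lib.MP_c5d73d_lc.F (pr)
open Pool.Agent.Lib.MP_e6fef2_lc
open Pool.Agent.Lib.MP_e6fef2_lc.H57
open Pool.Agent.Lib.MP_e6fef2_lc.H15 (ev_countable ev_const ev_normal ev_fun ev_fun2 ev_sets ev_all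
  supp Es mem_Es le_sSup_Es pick pick_spec)
open Pool.Agent.Lib.MP_6d445e_gt
open Pool.Agent.Lib.MP_6d445e_gt.H22 (adn_lt le_adn adn_le le_adn' map_cut inj_count Xh Xh_spec
  itp_le)

section basic

variable {A C : Type u} [CompleteBooleanAlgebra A] [CompleteBooleanAlgebra C]

theorem disX_mem {g : Ult A} {n : ℕ} {x : ℕ → RA A} {Y X : ℕ → A} (h : disX n x Y X ∈ g)
    {p i : ℕ} (hp : n ≤ p) (hx : ev X (x (Nat.pair p i)) ∈ g) : Y (Nat.pair p i) ∉ g := by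
  intro hY
  have h1 : disX n x Y X ≤ (ev X (x (Nat.pair p i)) ⊓ Y (Nat.pair p i))ᶜ :=
    (iInf_le _ p).trans ((iInf_le _ hp).trans (iInf_le _ i))
  exact g.mem_compl.1 (g.mono h1 h) (g.mem_inf.2 ⟨hx, hY⟩)

theorem disX_mem0 {g : Ult A} {x : ℕ → RA A} {Y X : ℕ → A} (h : disX 0 x Y X ∈ g) {n : ℕ}
    (hx : ev X (x n) ∈ g) : Y n ∉ g := by
  have := disX_mem (p := n.unpair.1) (i := n.unpair.2) h (Nat.zero_le _) (by simpa using hx)
  simpa using this

theorem avd_mono {ε : List Bool → A} {E F : Set (Pt A)} (h : E ⊆ F) (hF : Avd ε F) : Avd ε E :=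
  hF.mono fun _ hg x hx hE => hg x hx (h hE)

theorem length_res (x : Cs) (n : ℕ) : (res x n).length = n := by simp [res]

theorem gcX_rn (N : Set El.{u}) (X Y : ℕ → A) : gcX N X Y ≤ rn N X :=
  inf_le_left.trans inf_le_left

theorem gcX_cut (N : Set El.{u}) (X Y : ℕ → A) : gcX N X Y ≤ cut Y :=
  inf_le_left.trans inf_le_right

/-- Closed sets with a code are dense below a condition. -/
theorem le_cl (hRAPI : RapiStatement.{u}) (hREP : RepStatement.{u}) (hRFM : RfmStatement.{u})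
    (hREGX : RegxStatement.{u}) (hPIR : PirStatement.{u, v}) {b c : RA C} (hbc : b ≤ c)
    {E : Set (Pt C)} (hE : MeasurableSet E) (hEn : nl E) :
    b ≤ ⨆ ε : {ε : List Bool → C // Avd ε (E ∪ (rep c)ᶜ)}, b ⊓ cl ε.1 := by
  obtain ⟨a1, -, a3, -⟩ := hRAPI C
  obtain ⟨r1, -⟩ := hREP C
  have hm : MeasurableSet (rep c)ᶜ := (r1 c).1.compl
  have h1 : mkR (E ∪ (rep c)ᶜ) ≤ cᶜ := by
    have h2 : mkR (rep c)ᶜ = cᶜ := by rw [a3 _ (r1 c).1, (r1 c).2]
    rw [← h2, a1 _ _ (hE.union hm) hm]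
    refine nl_mono ?_ hEn
    rintro p ⟨hp | hp, hp'⟩
    · exact hp
    · exact absurd hp hp'
  have h2 : b ⊓ mkR (E ∪ (rep c)ᶜ) = ⊥ := by
    refine le_bot_iff.1 ((inf_le_inf hbc h1).trans ?_)
    rw [inf_compl_eq_bot]
  have hadd : AddM (fun a : C => a) (prj fun a : C => a) :=
    ⟨fun c c' => by simp only [prj_id], fun c a => by simp only [prj_id]⟩
  have hid : ∀ r : RA C, piR (fun a : C => a) (prj fun a : C => a) r = r := by
    intro r
    obtain ⟨-, -, -, -, p5, -⟩ := hPIR C C (fun a => a) ce_id (prj fun a : C => a) hadd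
    obtain ⟨-, -, -, -, -, -, -, -, -, q, -⟩ := hRFM C C (fun a => a) ce_id
    rw [p5, q, prj_id]
  have h3 := hREGX C C (fun a => a) ce_id (prj fun a : C => a) hadd b _ (hE.union hm) h2
  simp only [hid] at h3
  refine h3.trans (iSup_le fun ε => iSup_le fun hε => ?_)
  exact le_iSup (fun ε : {ε : List Bool → C // Avd ε (E ∪ (rep c)ᶜ)} => b ⊓ cl ε.1) ⟨ε, hε⟩

end basic

section

variable {L : Type u} [LinearOrder L] {A : L → Type u} [∀ i, CompleteBooleanAlgebra (A i)]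
  {f : ∀ i j, A i → A j} {C : Type u} [CompleteBooleanAlgebra C] {e : ∀ i, A i → C}

/-- The conditions which are used in the fusion. -/
structure Gd (e : ∀ i, A i → C) (D : Set C) (E : Set (Pt C)) (w : ℕ → RA C) (m : ℕ)
    (c c' : RA C) : Prop where
  dec : ∀ i ≤ m, c' ≤ w i ∨ c' ≤ (w i)ᶜ
  dns : ∃ d ∈ Es e D, c' ≤ kap d
  cls : ∃ ε : List Bool → C, Avd ε (E ∪ (rep c)ᶜ) ∧ c' ≤ cl ε

theorem le_gd (hRAPI : RapiStatement.{u}) (hREP : RepStatement.{u}) (hKAP : KapStatement.{u})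
    (hRFM : RfmStatement.{u}) (hREGX : RegxStatement.{u}) (hPIR : PirStatement.{u, v})
    (hDP : DP A e) {D : Set C} (hD : sSup D = ⊤) {E : Set (Pt C)} (hE : MeasurableSet E)
    (hEn : nl E) (w : ℕ → RA C) (m : ℕ) {b c : RA C} (hbc : b ≤ c) :
    b ≤ ⨆ c' : RA C, ⨆ _ : Gd e D E w m c c' ∧ c' ≤ b, c' := by
  classical
  have h2 := le_cl hRAPI hREP hRFM hREGX hPIR hbc hE hEn
  have hk := (hKAP C).1
  have h3 : (⨆ d : {d : C // d ∈ Es e D}, (kap d.1 : RA C)) = ⊤ := by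
    rw [← ce_iSup hk, eq_top_iff, ← ce_top hk]
    refine ce_mono hk ((le_sSup_Es hDP hD ⊤).trans ?_)
    exact iSup_le fun d => iSup_le fun hd =>
      le_iSup (fun d : {d : C // d ∈ Es e D} => d.1) ⟨d, hd.1⟩
  refine le_of_ae ?_
  filter_upwards [ae_iSup fun ε : {ε : List Bool → C // Avd ε (E ∪ (rep c)ᶜ)} => b ⊓ cl ε.1,
    ae_iSup fun d : {d : C // d ∈ Es e D} => (kap d.1 : RA C)] with g g1 g2 hb
  obtain ⟨ε, hε⟩ := g1.1 (g.mono h2 hb)
  obtain ⟨d, hd⟩ := g2.1 (h3 ▸ g.mem_top)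
  obtain ⟨v, hv⟩ : ∃ v : ℕ → RA C, v = fun i => if w i ∈ g then w i else (w i)ᶜ := ⟨_, rfl⟩
  have hv' : ∀ n, v n ∈ g := by
    intro n
    rw [hv]
    dsimp only
    split_ifs with h
    · exact h
    · exact g.mem_compl.2 h
  have h4 : b ⊓ cl ε.1 ⊓ kap d.1 ⊓ ⨅ n ∈ Finset.range (m + 1), v n ∈ g :=
    g.mem_inf.2 ⟨g.mem_inf.2 ⟨hε, hd⟩, (g.mem_finset_iInf _ _).2 fun n _ => hv' n⟩
  refine g.mono (le_iSup_of_le _ (le_iSup_of_le ⟨⟨fun i hi => ?_, ⟨d.1, d.2, ?_⟩,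
    ⟨ε.1, ε.2, ?_⟩⟩, ?_⟩ le_rfl)) h4
  · have h5 : b ⊓ cl ε.1 ⊓ kap d.1 ⊓ ⨅ n ∈ Finset.range (m + 1), v n ≤ v i :=
      inf_le_right.trans ((iInf_le _ i).trans (iInf_le _ (Finset.mem_range.2 (by omega))))
    rw [hv] at h5 ⊢
    dsimp only at h5 ⊢
    by_cases h : w i ∈ g
    · rw [if_pos h] at h5
      exact Or.inl h5
    · rw [if_neg h] at h5
      exact Or.inr h5
  · exact inf_le_left.trans inf_le_right
  · exact inf_le_left.trans (inf_le_left.trans inf_le_right)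
  · exact inf_le_left.trans (inf_le_left.trans inf_le_left)

open Classical in
/-- The family for the sequence lemma. -/
noncomputable def Wf (e : ∀ i, A i → C) (j : L) (m : ℕ) (c : RA C) (x : ℕ → RA C)
    (z : ℕ → RA (A j)) (y : ℕ → RA C) (D : Set C) (E : Set (Pt C)) (k : ℕ)
    (t : RA C × (ℕ → RA (A j))) : RA (A j) :=
  if Gd e D E (adn x y k) m c t.1 ∧ t.1 ≤ c ⊓ agr (rmap (e j)) z x k then
    itp (rmap (e j)) (prj (rmap (e j))) t.1 (adn x y k) t.2 else ⊥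

open Classical in
/-- An element of `Es e D` whose image is above `c`. -/
noncomputable def pickd (e : ∀ i, A i → C) (D : Set C) (c : RA C) : C :=
  if h : ∃ d ∈ Es e D, c ≤ kap d then h.choose else ⊥

theorem pickd_spec {D : Set C} {c : RA C} (h : ∃ d ∈ Es e D, c ≤ kap d) :
    pickd e D c ∈ Es e D ∧ c ≤ kap (pickd e D c) := by
  unfold pickd
  rw [dif_pos h]
  exact h.choose_spec

open Classical in
/-- A closed set with a code above `c'`. -/
noncomputable def picke (E : Set (Pt C)) (c c' : RA C) : List Bool → C :=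
  if h : ∃ ε : List Bool → C, Avd ε (E ∪ (rep c)ᶜ) ∧ c' ≤ cl ε then h.choose else fun _ => ⊥

theorem picke_spec {E : Set (Pt C)} {c c' : RA C}
    (h : ∃ ε : List Bool → C, Avd ε (E ∪ (rep c)ᶜ) ∧ c' ≤ cl ε) :
    Avd (picke E c c') (E ∪ (rep c)ᶜ) ∧ c' ≤ cl (picke E c c') := by
  unfold picke
  rw [dif_pos h]
  exact h.choose_spec

variable (f e) in
/-- The closure properties of `N`. -/
structure Clo (N : Set El.{u}) : Prop where
  cnt : N.Countable
  pres : ∀ j, In N j → ∀ j', In N j' → j ≤ j' → ∀ (X Y : ℕ → A j) (c : RA (A j'))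
    (x : ℕ → RA (A j')) (z : ℕ → RA (A j)), In N c → In N x → Sl x → In N z →
    gcX N X Y ⊓ ev X (itp (rmap (f j j')) (prj (rmap (f j j'))) c x z) ⊓ disX 0 z Y X ≤
      prj (f j j') (gcX N (fun n => f j j' (X n)) (fun n => f j j' (Y n)) ⊓
        ev (fun n => f j j' (X n)) c ⊓ disX 0 x (fun n => f j j' (Y n)) fun n => f j j' (X n))
  seq : ∀ j, In N j → ∀ (w : ℕ → RA C × (ℕ → RA (A j)) → RA (A j))
    (b : ℕ → RA C × (ℕ → RA (A j)) → ℕ → RA (A j)) (z : ℕ → RA (A j)) (r : ℕ → ℕ), In N w →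
    In N b → In N z → (∀ k t, w k t ≤ agr (fun a : RA (A j) => a) z (b k t) k) →
    (∀ k t, SlOn r (w k t) (b k t)) →
    ∀ X Y : ℕ → A j, ∀ᶠ g in ae (A j), gcX N X Y ∈ g → disX 0 z Y X ∈ g →
      (∀ k, ev X (⨆ t, w k t) ∈ g) →
      ∀ m, ∃ k, m ≤ k ∧ ∃ t, In N t ∧ ev X (w k t) ∈ g ∧ disX 0 (b k t) Y X ∈ g
  evg : ∀ j, In N j → ∀ X : ℕ → A j, ∀ᶠ g in ae (A j), rn N X ∈ g → EvG N X g
  wf : ∀ j, In N j → ∀ m : ℕ, ∀ c : RA C, In N c → ∀ x : ℕ → RA C, In N x →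
    ∀ z : ℕ → RA (A j), In N z → ∀ y : ℕ → RA C, In N y → ∀ D : Set C, In N D →
    ∀ E : Set (Pt C), In N E → In N (Wf e j m c x z y D E)
  bf : ∀ j, In N j → In N (fun (_ : ℕ) (t : RA C × (ℕ → RA (A j))) => t.2)
  sw : ∀ j, In N j → ∀ w : ℕ → RA C × (ℕ → RA (A j)) → RA (A j), In N w → ∀ k : ℕ,
    In N (⨆ t, w k t)
  it : ∀ j, In N j → ∀ c : RA C, In N c → ∀ x : ℕ → RA C, In N x → ∀ z : ℕ → RA (A j), In N z →
    In N (itp (rmap (e j)) (prj (rmap (e j))) c x z)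
  itf : ∀ j, In N j → ∀ j', In N j' → ∀ c : RA (A j'), In N c → ∀ x : ℕ → RA (A j'), In N x →
    ∀ z : ℕ → RA (A j), In N z → In N (itp (rmap (f j j')) (prj (rmap (f j j'))) c x z)
  pj : ∀ j, In N j → ∀ c : RA C, In N c → In N (prj (rmap (e j)) c)
  pa : ∀ j, In N j → ∀ c : C, In N c → In N (prj (e j) c)
  kp : ∀ j, In N j → ∀ a : A j, In N a → In N (kap a)
  cs : ∀ j, In N j → ∀ σ : List Bool, In N (cy σ : RA (A j))
  sp : ∀ c : C, In N c → In N (supp e c)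
  st : ∀ s : Set L, In N s → s.Countable → ∀ i ∈ s, In N i
  pk : ∀ (D : Set C) (d : C), In N D → In N d → In N (pick D d)
  pd : ∀ D : Set C, In N D → ∀ c : RA C, In N c → In N (pickd e D c)
  pe : ∀ E : Set (Pt C), In N E → ∀ c : RA C, In N c → ∀ c' : RA C, In N c' → In N (picke E c c')
  xh : ∀ j, In N j → ∀ c : RA C, In N c → ∀ x : ℕ → RA C, In N x → ∀ y : ℕ → RA (A j), In N y →
    In N (Xh (rmap (e j)) c x y)
  cf : ∀ j, In N j → ∀ j', In N j' → ∀ z : ℕ → RA (A j), In N z →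
    In N (fun n => rmap (f j j') (z n))
  ad : ∀ x : ℕ → RA C, In N x → ∀ y : ℕ → RA C, In N y → ∀ k : ℕ, In N (adn x y k)
  fs : ∀ j, In N j → ∀ t : RA C × (ℕ → RA (A j)), In N t → In N t.1 ∧ In N t.2
  pt : ∀ x : ℕ → RA C, In N x → ∀ q : ℕ, In N (x q)
  ptj : ∀ j, In N j → ∀ z : ℕ → RA (A j), In N z → ∀ q : ℕ, In N (z q)
  cm' : ∀ r : RA C, In N r → In N rᶜ

theorem ev_clo (hSEQ : SeqxStatement.{u}) (hEVX : EvxStatement.{u})
    (hPR : ∀ i j, i ≤ j → PRX (f i j)) : ∀ᶠ N in club, Clo f e N := by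
  have e1 : ∀ᶠ N in club, ∀ j, In N j → ∀ j', In N j' → j ≤ j' → ∀ (X Y : ℕ → A j)
      (c : RA (A j')) (x : ℕ → RA (A j')) (z : ℕ → RA (A j)), In N c → In N x → Sl x → In N z →
      gcX N X Y ⊓ ev X (itp (rmap (f j j')) (prj (rmap (f j j'))) c x z) ⊓ disX 0 z Y X ≤
        prj (f j j') (gcX N (fun n => f j j' (X n)) (fun n => f j j' (Y n)) ⊓
          ev (fun n => f j j' (X n)) c ⊓
            disX 0 x (fun n => f j j' (Y n)) fun n => f j j' (X n)) := by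
    refine ev_normal _ fun i => ev_normal _ fun j => ?_
    by_cases hij : i ≤ j
    · filter_upwards [hPR i j hij] with N hN _
      exact hN
    · exact Eventually.of_forall fun N h => absurd h hij
  have e2 : ∀ᶠ N in club, ∀ j, In N j → ∀ (w : ℕ → RA C × (ℕ → RA (A j)) → RA (A j))
      (b : ℕ → RA C × (ℕ → RA (A j)) → ℕ → RA (A j)) (z : ℕ → RA (A j)) (r : ℕ → ℕ), In N w →
      In N b → In N z → (∀ k t, w k t ≤ agr (fun a : RA (A j) => a) z (b k t) k) →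
      (∀ k t, SlOn r (w k t) (b k t)) →
      ∀ X Y : ℕ → A j, ∀ᶠ g in ae (A j), gcX N X Y ∈ g → disX 0 z Y X ∈ g →
        (∀ k, ev X (⨆ t, w k t) ∈ g) →
        ∀ m, ∃ k, m ≤ k ∧ ∃ t, In N t ∧ ev X (w k t) ∈ g ∧ disX 0 (b k t) Y X ∈ g :=
    ev_normal _ fun j => hSEQ (A j) (RA C × (ℕ → RA (A j)))
  have e3 : ∀ᶠ N in club, ∀ j, In N j → ∀ X : ℕ → A j, ∀ᶠ g in ae (A j), rn N X ∈ g →
      EvG N X g := ev_normal _ fun j => (hEVX (A j)).2.1
  have e4 : ∀ᶠ N in club, ∀ j, In N j → ∀ m : ℕ, ∀ c : RA C, In N c → ∀ x : ℕ → RA C, In N x →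
      ∀ z : ℕ → RA (A j), In N z → ∀ y : ℕ → RA C, In N y → ∀ D : Set C, In N D →
      ∀ E : Set (Pt C), In N E → In N (Wf e j m c x z y D E) :=
    ev_normal _ fun j => ev_all _ fun m => ev_normal _ fun c => ev_normal _ fun x =>
      ev_normal _ fun z => ev_normal _ fun y => ev_normal _ fun D => ev_normal _ fun E =>
        ev_const _
  have e5 : ∀ᶠ N in club, ∀ j, In N j →
      In N (fun (_ : ℕ) (t : RA C × (ℕ → RA (A j))) => t.2) :=
    ev_normal _ fun j => ev_const _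
  have e6 : ∀ᶠ N in club, ∀ j, In N j → ∀ w : ℕ → RA C × (ℕ → RA (A j)) → RA (A j), In N w →
      ∀ k : ℕ, In N (⨆ t, w k t) :=
    ev_normal _ fun j => ev_normal _ fun w => ev_all _ fun k => ev_const _
  have e7 : ∀ᶠ N in club, ∀ j, In N j → ∀ c : RA C, In N c → ∀ x : ℕ → RA C, In N x →
      ∀ z : ℕ → RA (A j), In N z → In N (itp (rmap (e j)) (prj (rmap (e j))) c x z) :=
    ev_normal _ fun j => ev_normal _ fun c => ev_normal _ fun x => ev_normal _ fun z => ev_const _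
  have e8 : ∀ᶠ N in club, ∀ j, In N j → ∀ j', In N j' → ∀ c : RA (A j'), In N c →
      ∀ x : ℕ → RA (A j'), In N x → ∀ z : ℕ → RA (A j), In N z →
      In N (itp (rmap (f j j')) (prj (rmap (f j j'))) c x z) :=
    ev_normal _ fun j => ev_normal _ fun j' => ev_normal _ fun c => ev_normal _ fun x =>
      ev_normal _ fun z => ev_const _
  have e9 : ∀ᶠ N in club, ∀ j, In N j → ∀ c : RA C, In N c → In N (prj (rmap (e j)) c) :=
    ev_normal _ fun j => ev_fun fun c => prj (rmap (e j)) c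
  have e10 : ∀ᶠ N in club, ∀ j, In N j → ∀ c : C, In N c → In N (prj (e j) c) :=
    ev_normal _ fun j => ev_fun fun c => prj (e j) c
  have e11 : ∀ᶠ N in club, ∀ j, In N j → ∀ a : A j, In N a → In N (kap a) :=
    ev_normal _ fun j => ev_fun fun a => kap a
  have e12 : ∀ᶠ N in club, ∀ j, In N j → ∀ σ : List Bool, In N (cy σ : RA (A j)) := by
    refine ev_normal _ fun j => ?_
    filter_upwards [ev_all (fun n N => ∀ σ : List Bool, Encodable.encode σ = n →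
      In N (cy σ : RA (A j))) fun n => by
        by_cases h : ∃ σ : List Bool, Encodable.encode σ = n
        · obtain ⟨σ, rfl⟩ := h
          filter_upwards [ev_const (cy σ : RA (A j))] with N hN τ hτ
          rw [Encodable.encode_injective hτ]
          exact hN
        · exact Eventually.of_forall fun N σ hσ => absurd ⟨σ, hσ⟩ h] with N hN σ
    exact hN _ σ rfl
  have e13 : ∀ᶠ N in club, ∀ c : C, In N c → In N (supp e c) := ev_fun fun c => supp e c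
  have e14 : ∀ᶠ N in club, ∀ (D : Set C) (d : C), In N D → In N d → In N (pick D d) :=
    ev_fun2 fun D d => pick D d
  have e15 : ∀ᶠ N in club, ∀ D : Set C, In N D → ∀ c : RA C, In N c → In N (pickd e D c) :=
    ev_normal _ fun D => ev_normal _ fun c => ev_const _
  have e16 : ∀ᶠ N in club, ∀ E : Set (Pt C), In N E → ∀ c : RA C, In N c → ∀ c' : RA C,
      In N c' → In N (picke E c c') :=
    ev_normal _ fun E => ev_normal _ fun c => ev_normal _ fun c' => ev_const _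
  have e17 : ∀ᶠ N in club, ∀ j, In N j → ∀ c : RA C, In N c → ∀ x : ℕ → RA C, In N x →
      ∀ y : ℕ → RA (A j), In N y → In N (Xh (rmap (e j)) c x y) :=
    ev_normal _ fun j => ev_normal _ fun c => ev_normal _ fun x => ev_normal _ fun y => ev_const _
  have e18 : ∀ᶠ N in club, ∀ j, In N j → ∀ j', In N j' → ∀ z : ℕ → RA (A j), In N z →
      In N (fun n => rmap (f j j') (z n)) :=
    ev_normal _ fun j => ev_normal _ fun j' => ev_normal _ fun z => ev_const _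
  have e19 : ∀ᶠ N in club, ∀ x : ℕ → RA C, In N x → ∀ y : ℕ → RA C, In N y → ∀ k : ℕ,
      In N (adn x y k) :=
    ev_normal _ fun x => ev_normal _ fun y => ev_all _ fun k => ev_const _
  have e20 : ∀ᶠ N in club, ∀ j, In N j → ∀ t : RA C × (ℕ → RA (A j)), In N t →
      In N t.1 ∧ In N t.2 :=
    ev_normal _ fun j => ev_normal _ fun t => (ev_const t.1).and (ev_const t.2)
  have e21 : ∀ᶠ N in club, ∀ x : ℕ → RA C, In N x → ∀ q : ℕ, In N (x q) :=
    ev_normal _ fun x => ev_all _ fun q => ev_const _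
  have e22 : ∀ᶠ N in club, ∀ j, In N j → ∀ z : ℕ → RA (A j), In N z → ∀ q : ℕ, In N (z q) :=
    ev_normal _ fun j => ev_normal _ fun x => ev_all _ fun q => ev_const _
  have e23 : ∀ᶠ N in club, ∀ r : RA C, In N r → In N rᶜ := ev_fun fun r => rᶜ
  filter_upwards [ev_countable, e1, e2, e3, e4, e5, e6, e7, e8, e9, e10, e11, e12, e13,
    ev_sets L, e14, e15, e16, e17, e18, e19, e20, e21, e22, e23]
    with N h0 h1 h2 h3 h4 h5 h6 h7 h8 h9 h10 h11 h12 h13 h13' h14 h15 h16 h17 h18 h19 h20 h21 h22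
      h23
  exact ⟨h0, h1, h2, h3, h4, h5, h6, h7, h8, h9, h10, h11, h12, h13, h13', h14, h15, h16, h17,
    h18, h19, h20, h21, h22, h23⟩

theorem step (hLB : LbStatement.{u}) (hITP : ItpStatement.{u}) (hITP2 : Itp2Statement.{u})
    (hSLA : SlaStatement.{u}) (hRAPI : RapiStatement.{u}) (hREP : RepStatement.{u})
    (hKAP : KapStatement.{u}) (hRFM : RfmStatement.{u}) (hREGX : RegxStatement.{u})
    (hPIR : PirStatement.{u, v}) (hch : IsCh A f) (htop : IsTop A f e) (hDP : DP A e)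
    {N : Set El.{u}} (hN : Clo f e N) {j j' : L} (hj : In N j) (hj' : In N j') (hjj : j ≤ j')
    (X Y : ℕ → A j) (m : ℕ) {c : RA C} (hc : In N c) {x : ℕ → RA C} (hx : In N x) (hSx : Sl x)
    {z : ℕ → RA (A j)} (hz : In N z) {y : ℕ → RA C} (hy : In N y) (hSy : Sl y) {D : Set C}
    (hD : In N D) (hDt : sSup D = ⊤) {E : Set (Pt C)} (hE : In N E) (hEm : MeasurableSet E)
    (hEn : nl E) :
    gcX N X Y ⊓ ev X (itp (rmap (e j)) (prj (rmap (e j))) c x z) ⊓ disX 0 z Y X ≤ prj (f j j')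
      (⨆ s : RA C × (ℕ → RA C) × (ℕ → RA (A j')),
        ⨆ _ : (In N s.1 ∧ In N s.2.1 ∧ Sl s.2.1 ∧ In N s.2.2) ∧
          s.1 ≤ c ∧ ∃ k, s.2.1 = adn x y k ∧ Gd e D E s.2.1 m c s.1,
        gcX N (fun n => f j j' (X n)) (fun n => f j j' (Y n)) ⊓
          ev (fun n => f j j' (X n)) (itp (rmap (e j')) (prj (rmap (e j'))) s.1 s.2.1 s.2.2) ⊓
            disX 0 s.2.2 (fun n => f j j' (Y n)) (fun n => f j j' (X n))) := by
  have hf := hch.ce j j' hjj
  have hre : IsCE (rmap (e j)) := (hRFM (A j) C (e j) (htop.ce j)).1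
  have hre' : IsCE (rmap (e j')) := (hRFM (A j') C (e j') (htop.ce j')).1
  obtain ⟨hrf, -, -, -, -, -, -, -, -, -, hrc⟩ := hRFM (A j) (A j') (f j j') hf
  have hcomp : (fun r => rmap (e j') (rmap (f j j') r)) = rmap (e j) := by
    rw [← hrc C (e j') (htop.ce j')]
    congr 1
    exact funext (htop.comp j j' hjj)
  obtain ⟨-, -, i3, -, i5⟩ := hITP (RA (A j)) (RA C) (rmap (e j)) hre
  obtain ⟨-, -, -, -, -, p6, -, -, p9⟩ := i5 (prj (rmap (e j))) i3
  obtain ⟨-, s2, s3, s4, -, -⟩ := hSLA (RA C)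
  obtain ⟨r', hr'⟩ := hSx
  obtain ⟨ry, hry⟩ := hSy
  have hSl : ∀ k, SlOn (fun p => r' p + ry p) ⊤ (adn x y k) := fun k =>
    s4 _ _ _ _ (fun n => inf_le_right.trans (adn_le x y n k)) (s3 r' ry ⊤ x y hr' hry)
  have hagr : ∀ (k : ℕ), agr (rmap (e j)) z (adn x y k) k = agr (rmap (e j)) z x k := by
    intro k
    unfold agr
    refine iInf_congr fun n => iInf_congr fun hn => ?_
    rw [adn_lt x y hn]
  have hwN := hN.wf j hj m c hc x hx z hz y hy D hD E hE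
  refine le_of_ae ?_
  filter_upwards [hN.seq j hj (Wf e j m c x z y D E) (fun _ t => t.2) z (fun p => r' p + ry p)
    hwN (hN.bf j hj) hz (fun k t => by
      unfold Wf
      split_ifs with h
      · exact p6 t.1 (adn x y k) t.2 z k (by rw [hagr]; exact h.2.trans inf_le_right)
      · exact bot_le) (fun k t => by
      unfold Wf
      split_ifs with h
      · exact p9 t.1 (adn x y k) t.2 _ (s2 _ _ ⊤ t.1 _ (fun _ => le_rfl) le_top (hSl k))
      · exact Eventually.of_forall fun g hg => (g.not_bot hg).elim) X Y, hN.evg j hj X]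
    with g hg hev hu
  obtain ⟨hu1, hu2⟩ := g.mem_inf.1 hu
  obtain ⟨hu3, hu4⟩ := g.mem_inf.1 hu1
  have hG : EvG N X g := hev (g.mono (gcX_rn N X Y) hu3)
  obtain ⟨k, -, t, ht, hw, hd⟩ := hg hu3 hu2 (fun k => by
    refine hG.mono _ _ (hN.it j hj c hc x hx z hz) (hN.sw j hj _ hwN k) ?_ hu4
    refine (iInf_le _ k).trans ?_
    refine (prj_mono hre (le_gd hRAPI hREP hKAP hRFM hREGX hPIR hDP hDt hEm hEn (adn x y k) m
      (inf_le_left : c ⊓ agr (rmap (e j)) z x k ≤ c))).trans ?_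
    rw [prj_iSup hre]
    refine iSup_le fun c' => ?_
    rw [prj_iSup hre]
    refine iSup_le fun h => ?_
    obtain ⟨zt, hzt, -⟩ := hLB (RA (A j)) (RA C) (rmap (e j)) hre (prj (rmap (e j))) i3 c'
      (adn x y k) z
    refine le_iSup_of_le (c', zt) ?_
    unfold Wf
    exact le_of_le_of_eq hzt (if_pos h).symm) 0
  unfold Wf at hw
  split_ifs at hw with h
  · obtain ⟨ht1, ht2⟩ := hN.fs j hj t ht
    obtain ⟨q1, q2, q3⟩ :=
      Xh_spec hLB hITP hSLA hre' t.1 (adn x y k) (fun n => rmap (f j j') (t.2 n))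
    have h4 := (hITP2 (RA (A j)) (RA (A j')) (RA C) (rmap (f j j')) (rmap (e j')) hrf hre').1 t.1
      (adn x y k) t.2 (Xh (rmap (e j')) t.1 (adn x y k) (fun n => rmap (f j j') (t.2 n)))
      (fun l => q3 l)
    rw [hcomp] at h4
    have hadN : In N (adn x y k) := hN.ad x hx y hy k
    have hxhN : In N (Xh (rmap (e j')) t.1 (adn x y k) (fun n => rmap (f j j') (t.2 n))) :=
      hN.xh j' hj' t.1 ht1 _ hadN _ (hN.cf j hj j' hj' t.2 ht2)
    have hpN := hN.pj j' hj' t.1 ht1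
    have h5 := hN.pres j hj j' hj' hjj X Y (prj (rmap (e j')) t.1) _ t.2 hpN hxhN
      (q1 ⟨_, hSl k⟩) ht2
    have h6 : ev X (itp (rmap (f j j')) (prj (rmap (f j j'))) (prj (rmap (e j')) t.1)
        (Xh (rmap (e j')) t.1 (adn x y k) (fun n => rmap (f j j') (t.2 n))) t.2) ∈ g :=
      hG.mono _ _ (hN.it j hj t.1 ht1 _ hadN _ ht2)
        (hN.itf j hj j' hj' _ hpN _ hxhN _ ht2) h4 hw
    refine g.mono (h5.trans (prj_mono hf ?_)) (g.mem_inf.2 ⟨g.mem_inf.2 ⟨hu3, h6⟩, hd⟩)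
    refine le_iSup_of_le
      (t.1, adn x y k, Xh (rmap (e j')) t.1 (adn x y k) (fun n => rmap (f j j') (t.2 n)))
      (le_iSup_of_le ⟨⟨ht1, hadN, ⟨_, hSl k⟩, hxhN⟩, h.2.trans inf_le_left, k, rfl, h.1⟩ ?_)
    refine inf_le_inf_right _ (le_of_ae ?_)
    filter_upwards [hN.evg j' hj' (fun n => f j j' (X n))] with g' h8 h9
    obtain ⟨h10, h11⟩ := g'.mem_inf.1 h9
    have hG' := h8 (g'.mono (gcX_rn _ _ _) h10)
    exact g'.mem_inf.2 ⟨h10, hG'.mono _ _ hpN (hN.it j' hj' t.1 ht1 _ hadN _ hxhN) q2 h11⟩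
  · exact (hG.bt hw).elim

/-- The conclusion of VER for `N`. -/
def VerAt (C : Type u) [CompleteBooleanAlgebra C] (N : Set El.{u}) : Prop :=
  ∀ X : ℕ → C, ∀ᶠ h in ae C, ∀ e : ℕ → RA C, (∀ n, In N (e n)) → (∀ n, e (n + 1) ≤ e n) →
    (∀ E : Set (Pt C), In N E → MeasurableSet E → nl E →
      ∃ n, ∃ ε : List Bool → C, In N ε ∧ Avd ε E ∧ e n ≤ cl ε) →
    (∀ n, ∃ k, ∃ ε : List Bool → C, In N ε ∧ Avd ε (rep (e n))ᶜ ∧ e k ≤ cl ε) →
    (∀ D : Set C, In N D → sSup D = ⊤ → ∃ n, ∃ d ∈ D, In N d ∧ d ∈ h ∧ e n ≤ kap d) →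
    (∀ n k, e n ⊓ cy (res (vx X h) k) ≠ ⊥) →
      rn N X ∈ h ∧ ∀ n, ev X (e n) ∈ h

theorem nl_empty : nl (∅ : Set (Pt C)) := Eventually.of_forall fun g => by
  have : sec (∅ : Set (Pt C)) g = ∅ := by
    ext x
    simp [sec]
  rw [this]
  exact measure_empty

theorem core (hLB : LbStatement.{u}) (hITP : ItpStatement.{u}) (hITP2 : Itp2Statement.{u})
    (hSLA : SlaStatement.{u}) (hAF : AfStatement.{u, u}) (hRAPI : RapiStatement.{u})
    (hREP : RepStatement.{u}) (hKAP : KapStatement.{u}) (hRFM : RfmStatement.{u})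
    (hREGX : RegxStatement.{u}) (hPIR : PirStatement.{u, v}) (hDIX : DixStatement.{u})
    (hch : IsCh A f) (htop : IsTop A f e)
    (hTP : TP A f e) (hDP : DP A e) {N : Set El.{u}} (hN : Clo f e N) (hT : In N ({⊤} : Set C))
    (hO : In N (∅ : Set (Pt C))) (hVer : VerAt C N)
    (hEv : ∀ X : ℕ → C, ∀ᶠ h in ae C, rn N X ∈ h → EvG N X h)
    (j : ℕ → L) (hj : Monotone j) (hjN : ∀ n, In N (j n)) (hjc : ∀ s, In N s → ∃ n, s ≤ j n)
    (X Y : ℕ → A (j 0)) (c : RA C) (x : ℕ → RA C) (z : ℕ → RA (A (j 0))) (hc : In N c)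
    (hx : In N x) (hSx : Sl x) (hz : In N z) :
    gcX N X Y ⊓ ev X (itp (rmap (e (j 0))) (prj (rmap (e (j 0)))) c x z) ⊓ disX 0 z Y X ≤
      prj (e (j 0)) (gcX N (fun n => e (j 0) (X n)) (fun n => e (j 0) (Y n)) ⊓
        ev (fun n => e (j 0) (X n)) c ⊓
          disX 0 x (fun n => e (j 0) (Y n)) fun n => e (j 0) (X n)) := by
  obtain ⟨D, hD⟩ := ((inj_count hN.cnt (Set C)).mono
    fun D (hD : D ∈ {D : Set C | In N D ∧ sSup D = ⊤}) => hD.1).exists_eq_range ⟨{⊤}, hT, by simp⟩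
  have hDN : ∀ n, In N (D n) ∧ sSup (D n) = ⊤ := fun n => by
    have : D n ∈ {D : Set C | In N D ∧ sSup D = ⊤} := hD ▸ ⟨n, rfl⟩
    exact this
  obtain ⟨E, hE⟩ := ((inj_count hN.cnt (Set (Pt C))).mono
    fun E (hE : E ∈ {E : Set (Pt C) | In N E ∧ MeasurableSet E ∧ nl E}) =>
      hE.1).exists_eq_range ⟨∅, hO, MeasurableSet.empty, nl_empty⟩
  have hEN : ∀ n, In N (E n) ∧ MeasurableSet (E n) ∧ nl (E n) := fun n => by
    have : E n ∈ {E : Set (Pt C) | In N E ∧ MeasurableSet E ∧ nl E} := hE ▸ ⟨n, rfl⟩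
    exact this
  obtain ⟨y, hy⟩ := ((inj_count hN.cnt (ℕ → RA C)).mono
    fun D (hD : D ∈ {y : ℕ → RA C | In N y ∧ Sl y}) => hD.1).exists_eq_range ⟨x, hx, hSx⟩
  have hyN : ∀ n, In N (y n) ∧ Sl (y n) := fun n => by
    have : y n ∈ {y : ℕ → RA C | In N y ∧ Sl y} := hy ▸ ⟨n, rfl⟩
    exact this
  let St : ℕ → Type u := fun n => {s : RA C × (ℕ → RA C) × (ℕ → RA (A (j n))) //
    In N s.1 ∧ In N s.2.1 ∧ Sl s.2.1 ∧ In N s.2.2}
  have hSt : ∀ n, Countable (St n) := by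
    intro n
    have c1 : Countable {t : RA C | In N t} := (inj_count hN.cnt (RA C)).to_subtype
    have c2 : Countable {t : ℕ → RA C | In N t} := (inj_count hN.cnt _).to_subtype
    have c3 : Countable {t : ℕ → RA (A (j n)) | In N t} := (inj_count hN.cnt _).to_subtype
    refine Function.Injective.countable (f := fun s : St n =>
      ((⟨s.1.1, s.2.1⟩, ⟨s.1.2.1, s.2.2.1⟩, ⟨s.1.2.2, s.2.2.2.2⟩) :
        {t : RA C | In N t} × {t : ℕ → RA C | In N t} × {t : ℕ → RA (A (j n)) | In N t})) ?_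
    rintro ⟨⟨a1, a2, a3⟩, ha⟩ ⟨⟨b1, b2, b3⟩, hb⟩ hab
    simp only [Prod.mk.injEq, Subtype.mk.injEq] at hab
    obtain ⟨rfl, rfl, rfl⟩ := hab
    rfl
  let U : ∀ n, St n → A (j n) := fun n s =>
    gcX N (fun k => f (j 0) (j n) (X k)) (fun k => f (j 0) (j n) (Y k)) ⊓
    ev (fun k => f (j 0) (j n) (X k))
      (itp (rmap (e (j n))) (prj (rmap (e (j n)))) s.1.1 s.1.2.1 s.1.2.2) ⊓
      disX 0 s.1.2.2 (fun k => f (j 0) (j n) (Y k)) (fun k => f (j 0) (j n) (X k))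
  let R : ∀ n, St n → St (n + 1) → Prop := fun n s s' =>
    s'.1.1 ≤ s.1.1 ∧ ∃ k, s'.1.2.1 = adn s.1.2.1 (y n) k ∧
      Gd e (D n) (E n) s'.1.2.1 n s.1.1 s'.1.1
  have hXc : ∀ n k, f (j n) (j (n + 1)) (f (j 0) (j n) (X k)) = f (j 0) (j (n + 1)) (X k) :=
    fun n k => hch.comp _ _ _ (hj (Nat.zero_le n)) (hj (Nat.le_succ n)) _
  have hYc : ∀ n k, f (j n) (j (n + 1)) (f (j 0) (j n) (Y k)) = f (j 0) (j (n + 1)) (Y k) :=
    fun n k => hch.comp _ _ _ (hj (Nat.zero_le n)) (hj (Nat.le_succ n)) _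
  have hstep : ∀ n s, U n s ≤ prj (f (j n) (j (n + 1))) (⨆ s', ⨆ _ : R n s s', U (n + 1) s') := by
    intro n s
    have h1 := step hLB hITP hITP2 hSLA hRAPI hREP hKAP hRFM hREGX hPIR hch htop hDP hN (hjN n)
      (hjN (n + 1)) (hj (Nat.le_succ n)) (fun k => f (j 0) (j n) (X k))
      (fun k => f (j 0) (j n) (Y k)) n s.2.1 s.2.2.1 s.2.2.2.1 s.2.2.2.2
      (hyN n).1 (hyN n).2 (hDN n).1 (hDN n).2 (hEN n).1 (hEN n).2.1 (hEN n).2.2
    refine h1.trans (prj_mono (hch.ce _ _ (hj (Nat.le_succ n))) ?_)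
    refine iSup_le fun t => iSup_le fun ht => ?_
    simp only [hXc, hYc]
    exact le_iSup_of_le (⟨t, ht.1⟩ : St (n + 1)) (le_iSup_of_le ht.2 le_rfl)
  obtain ⟨p, hp, hae⟩ := hAF (fun n => A (j n)) (fun n => f (j n) (j (n + 1))) C
    (fun n => e (j n)) (fun n => hch.ce _ _ (hj (Nat.le_succ n))) (fun n => htop.ce _)
    (fun n a => htop.comp _ _ (hj (Nat.le_succ n)) a) (fun q hq => hTP j hj q hq) St U R hstep
    ⟨(c, x, z), hc, hx, hSx, hz⟩ _ le_rfl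
  have hU0 : U 0 ⟨(c, x, z), hc, hx, hSx, hz⟩ =
      gcX N X Y ⊓ ev X (itp (rmap (e (j 0))) (prj (rmap (e (j 0)))) c x z) ⊓ disX 0 z Y X := by
    simp only [U, hch.id]
  rw [← hU0, ← hp]
  refine prj_mono (htop.ce _) (le_of_ae ?_)
  have hsup : ∀ᶠ h in ae C, ∀ c' : {c' : C // In N c'}, (supp e c'.1).Countable →
      (∀ s ∈ supp e c'.1, e s (prj (e s) c'.1) ∈ h) →
      (⨅ s ∈ supp e c'.1, e s (prj (e s) c'.1)) ∈ h := by
    have hcc : Countable {c' : C // In N c'} := (inj_count hN.cnt C).to_subtype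
    refine ae_all fun c' => ?_
    by_cases hcnt : (supp e c'.1).Countable
    · have hcc' := hcnt.to_subtype
      filter_upwards [ae_iInf fun s : supp e c'.1 => e s.1 (prj (e s.1) c'.1)] with h hh _ hs
      rw [iInf_subtype']
      exact hh.2 fun s => hs s.1 s.2
    · exact Eventually.of_forall fun h hh => absurd hh hcnt
  have hev : ∀ᶠ h in ae C, ∀ n, rn N (fun k => f (j 0) (j n) (X k)) ∈ h.pull (htop.ce (j n)) →
      EvG N (fun k => f (j 0) (j n) (X k)) (h.pull (htop.ce (j n))) :=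
    ae_all fun n => ae_pull (htop.ce (j n)) (hN.evg (j n) (hjN n) _)
  have hdix : ∀ᶠ h in ae C, ∀ (x' : {x' : ℕ → RA C // In N x'}) (n : ℕ),
      disX n x'.1 (fun n => e (j 0) (Y n)) (fun n => e (j 0) (X n)) ∈ h ↔
        ∀ p, n ≤ p → ∀ i, ev (fun n => e (j 0) (X n)) (x'.1 (Nat.pair p i)) ∈ h →
          e (j 0) (Y (Nat.pair p i)) ∉ h := by
    have hcc : Countable {x' : ℕ → RA C // In N x'} := (inj_count hN.cnt (ℕ → RA C)).to_subtype
    exact ae_all fun x' => ae_all fun n => (hDIX C).1 n x'.1 _ _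
  filter_upwards [hae, hVer (fun n => e (j 0) (X n)), hEv (fun n => e (j 0) (X n)), hsup, hev,
    hdix, (hDIX C).2.1 N hN.cnt (fun n => e (j 0) (X n)) (fun n => e (j 0) (Y n))]
    with h h1 h2 h3 h4 h5 h6 h7 hph
  obtain ⟨ξ, hξ0, hξ⟩ := h1 hph
  have hUU : ∀ n, (e (j n) (gcX N (fun k => f (j 0) (j n) (X k)) (fun k => f (j 0) (j n) (Y k)))
      ∈ h ∧ e (j n) (ev (fun k => f (j 0) (j n) (X k)) (itp (rmap (e (j n)))
        (prj (rmap (e (j n)))) (ξ n).1.1 (ξ n).1.2.1 (ξ n).1.2.2)) ∈ h) ∧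
      e (j n) (disX 0 (ξ n).1.2.2 (fun k => f (j 0) (j n) (Y k))
        (fun k => f (j 0) (j n) (X k))) ∈ h := by
    intro n
    have h8 := (hξ n).2
    simp only [U] at h8
    rw [ce_inf (htop.ce _), ce_inf (htop.ce _), h.mem_inf, h.mem_inf] at h8
    exact h8
  have hG : ∀ n, EvG N (fun k => f (j 0) (j n) (X k)) (h.pull (htop.ce (j n))) := fun n =>
    h5 n (h.mono (ce_mono (htop.ce _) (gcX_rn _ _ _)) (hUU n).1.1)
  have hca : ∀ m l, m ≤ l → (ξ l).1.1 ≤ (ξ m).1.1 := fun m l hml =>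
    antitone_nat_of_succ_le (f := fun n => (ξ n).1.1) (fun n => (hξ n).1.1) hml
  have hxm : ∀ k m l, m ≤ l → (ξ m).1.2.1 k ≤ (ξ l).1.2.1 k := fun k m l hml =>
    monotone_nat_of_le_succ (f := fun n => (ξ n).1.2.1 k) (fun n => by
      obtain ⟨-, k', h6, -⟩ := (hξ n).1
      rw [h6]
      exact le_adn _ _ _ _) hml
  have hprj : ∀ n, ev (fun k => f (j 0) (j n) (X k)) (prj (rmap (e (j n))) (ξ n).1.1) ∈
      h.pull (htop.ce (j n)) := by
    intro n
    obtain ⟨-, -, i3, -, i5⟩ := hITP (RA (A (j n))) (RA C) (rmap (e (j n)))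
      (hRFM (A (j n)) C (e (j n)) (htop.ce _)).1
    obtain ⟨-, -, p3, -⟩ := i5 (prj (rmap (e (j n)))) i3
    exact (hG n).mono _ _ (hN.it _ (hjN n) _ (ξ n).2.1 _ (ξ n).2.2.1 _ (ξ n).2.2.2.2)
      (hN.pj _ (hjN n) _ (ξ n).2.1) (p3 _ _ _) (hUU n).1.2
  -- elements with countable support
  have hds : ∀ m, ∀ d : C, In N d → d ∈ Es e (D m) → (ξ (m + 1)).1.1 ≤ kap d → d ∈ h := by
    rintro m d hdN ⟨-, hcnt, -, heq⟩ hd
    have h8 := h4 ⟨d, hdN⟩ hcnt (fun s hs => by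
      have hsN : In N s := hN.st _ (hN.sp _ hdN) hcnt s hs
      obtain ⟨l, hl⟩ := hjc s hsN
      have hsl : s ≤ j (max l (m + 1)) := hl.trans (hj (le_max_left _ _))
      obtain ⟨hre, -, -, -, -, -, -, hk, -, -⟩ := hRFM (A (j (max l (m + 1)))) C
        (e (j (max l (m + 1)))) (htop.ce _)
      have g0 : prj (rmap (e (j (max l (m + 1))))) (ξ (max l (m + 1))).1.1 ≤
          kap (prj (e (j (max l (m + 1)))) d) := by
        rw [← hk]
        exact prj_mono hre ((hca (m + 1) (max l (m + 1)) (le_max_right _ _)).trans hd)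
      have hpN := hN.pa _ (hjN (max l (m + 1))) d hdN
      have g3 := (hG (max l (m + 1))).mono _ _ (hN.pj _ (hjN _) _ (ξ _).2.1)
        (hN.kp _ (hjN _) _ hpN) g0 (hprj (max l (m + 1)))
      have g4 : e (j (max l (m + 1))) (prj (e (j (max l (m + 1)))) d) ∈ h :=
        ((hG (max l (m + 1))).kp _ hpN).1 g3
      refine h.mono ?_ g4
      have g1 : prj (e s) d =
          prj (f s (j (max l (m + 1)))) (prj (e (j (max l (m + 1)))) d) := by
        have g2 : e s = fun y => e (j (max l (m + 1))) (f s (j (max l (m + 1))) y) := by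
          funext y
          exact (htop.comp _ _ hsl y).symm
        rw [g2, prj_comp (hch.ce _ _ hsl) (htop.ce _)]
      dsimp only
      rw [g1, ← htop.comp _ _ hsl]
      exact ce_mono (htop.ce _) (le_prj (hch.ce _ _ hsl) _))
    dsimp only at h8
    rw [← heq] at h8
    exact h8
  have hvx : ∀ n, vx (fun k => f (j 0) (j n) (X k)) (h.pull (htop.ce (j n))) =
      vx (fun n => e (j 0) (X n)) h := by
    intro n
    funext k
    unfold vx
    have h8 : (f (j 0) (j n) (X k) ∈ h.pull (htop.ce (j n))) ↔ e (j 0) (X k) ∈ h := by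
      rw [Ult.mem_pull, htop.comp _ _ (hj (Nat.zero_le n))]
    exact decide_eq_decide.2 h8
  have hver := h2 (fun n => (ξ n).1.1) (fun n => (ξ n).2.1) (fun n => (hξ n).1.1)
    (fun E' hE' hEm' hEn' => by
      obtain ⟨m, rfl⟩ : E' ∈ Set.range E := hE ▸ ⟨hE', hEm', hEn'⟩
      obtain ⟨-, k, -, hgd⟩ := (hξ m).1
      obtain ⟨q1, q2⟩ := picke_spec hgd.cls
      exact ⟨m + 1, _, hN.pe _ hE' _ (ξ m).2.1 _ (ξ (m + 1)).2.1,
        avd_mono Set.subset_union_left q1, q2⟩)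
    (fun n => by
      obtain ⟨-, k, -, hgd⟩ := (hξ n).1
      obtain ⟨q1, q2⟩ := picke_spec hgd.cls
      exact ⟨n + 1, _, hN.pe _ (hEN n).1 _ (ξ n).2.1 _ (ξ (n + 1)).2.1,
        avd_mono Set.subset_union_right q1, q2⟩)
    (fun D' hD' hDt' => by
      obtain ⟨m, rfl⟩ : D' ∈ Set.range D := hD ▸ ⟨hD', hDt'⟩
      obtain ⟨-, k, -, hgd⟩ := (hξ m).1
      obtain ⟨q1, q2⟩ := pickd_spec hgd.dns
      have hdN := hN.pd _ hD' _ (ξ (m + 1)).2.1
      obtain ⟨r1, r2⟩ := pick_spec q1.1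
      have hdh := hds m _ hdN q1 q2
      exact ⟨m + 1, _, r1, hN.pk _ _ hD' hdN, h.mono r2 hdh,
        q2.trans (ce_mono (hKAP C).1 r2)⟩)
    (fun n k hbot => by
      have hGn := hG n
      obtain ⟨hre, -, -, -, -, hcy, -⟩ := hRFM (A (j n)) C (e (j n)) (htop.ce _)
      have g1 : ev (fun k => f (j 0) (j n) (X k)) (cy (res (vx (fun n => e (j 0) (X n)) h) k)) ∈
          h.pull (htop.ce (j n)) := by
        rw [hGn.cyl, length_res, hvx]
      have g2 := (hGn.inf _ _ (hN.pj _ (hjN n) _ (ξ n).2.1) (hN.cs _ (hjN n) _)).2 ⟨hprj n, g1⟩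
      have g3 : prj (rmap (e (j n))) (ξ n).1.1 ⊓ cy (res (vx (fun n => e (j 0) (X n)) h) k) =
          ⊥ := by
        refine (prj_inf hre (ξ n).1.1 (cy (res (vx (fun n => e (j 0) (X n)) h) k))).symm.trans ?_
        rw [hcy]
        exact (congrArg (prj (rmap (e (j n)))) hbot).trans (prj_bot hre)
      rw [g3] at g2
      exact hGn.bt g2)
  obtain ⟨hrn, hevn⟩ := hver
  have hGC := h3 hrn
  have hdj : ∀ m n, ev (fun n => e (j 0) (X n)) ((ξ m).1.2.1 n) ∈ h → e (j 0) (Y n) ∉ h := by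
    intro m n hxn hYn
    obtain ⟨-, k, -, hgd⟩ := (hξ (max m n)).1
    have hxN := hN.pt _ (ξ (max m n + 1)).2.2.1 n
    have h8 : ev (fun n => e (j 0) (X n)) ((ξ (max m n + 1)).1.2.1 n) ∈ h :=
      hGC.mono _ _ (hN.pt _ (ξ m).2.2.1 n) hxN
        (hxm n m (max m n + 1) ((le_max_left _ _).trans (Nat.le_succ _))) hxn
    rcases hgd.dec n (le_max_right _ _) with h9 | h9
    · have h10 := (hG (max m n + 1)).mono _ _
        (hN.it _ (hjN _) _ (ξ _).2.1 _ (ξ _).2.2.1 _ (ξ _).2.2.2.2)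
        (hN.ptj _ (hjN _) _ (ξ (max m n + 1)).2.2.2.2 n)
        (itp_le (hRFM (A (j (max m n + 1))) C (e (j (max m n + 1))) (htop.ce _)).1
          (z := (ξ (max m n + 1)).1.2.2) h9) (hUU (max m n + 1)).1.2
      have h11 := disX_mem0 (g := h.pull (htop.ce (j (max m n + 1)))) (hUU (max m n + 1)).2
        (n := n) h10
      apply h11
      change e (j (max m n + 1)) (f (j 0) (j (max m n + 1)) (Y n)) ∈ h
      rw [htop.comp _ _ (hj (Nat.zero_le _))]
      exact hYn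
    · exact (hGC.cpl _ hxN).1 (hGC.mono _ _ (ξ (max m n + 1)).2.1 (hN.cm' _ hxN) h9
        (hevn (max m n + 1))) h8
  have hcut : cut (fun n => e (j 0) (Y n)) ∈ h := by
    rw [← map_cut (htop.ce (j 0))]
    have h8 := (hUU 0).1.1
    simp only [hch.id] at h8
    exact h.mono (ce_mono (htop.ce _) (gcX_cut _ _ _)) h8
  refine h.mem_inf.2 ⟨h.mem_inf.2 ⟨h7.2 ⟨hrn, hcut, fun x' hx' hSx' => ?_⟩, ?_⟩, ?_⟩
  · obtain ⟨m, rfl⟩ : x' ∈ Set.range y := hy ▸ ⟨hx', hSx'⟩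
    obtain ⟨-, k, hk, -⟩ := (hξ m).1
    refine ⟨k, (h6 ⟨y m, hx'⟩ k).2 fun p hp i hi => hdj (m + 1) _ ?_⟩
    rw [hk]
    exact hGC.mono _ _ (hN.pt _ hx' _) (hN.pt _ (hN.ad _ (ξ m).2.2.1 _ hx' k) _)
      (le_adn' _ _ _ hp) hi
  · have h8 := hevn 0
    rw [hξ0] at h8
    exact h8
  · refine (h6 ⟨x, hx⟩ 0).2 fun p _ i hi => hdj 0 _ ?_
    rw [hξ0]
    exact hi

end

theorem prxlim (hRAPI : RapiStatement.{u}) (hREP : RepStatement.{u}) (hKAP : KapStatement.{u})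
    (hRFM : RfmStatement.{u}) (hREGX : RegxStatement.{u}) (hPIR : PirStatement.{u, v})
    (hEVX : EvxStatement.{u}) (hDIX : DixStatement.{u}) (hVER : VerStatement.{u})
    (hSEQ : SeqxStatement.{u}) : PrxlimStatement.{u} := by
  intro L _ A _ f C _ e hch htop hTP hDP hPR i
  filter_upwards [ev_clo (e := e) hSEQ hEVX hPR, ev_const i, ev_const ({⊤} : Set C),
    ev_const (∅ : Set (Pt C)), hVER C, (hEVX C).2.1]
    with N hN hi hT hO hV hE X Y c x z hc hx hSx hz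
  obtain ⟨l, hl⟩ := (inj_count hN.cnt L).exists_eq_range ⟨i, hi⟩
  have hlN : ∀ n, In N (l n) := fun n => by
    have : l n ∈ {t : L | In N t} := hl ▸ ⟨n, rfl⟩
    exact this
  let j : ℕ → L := fun n => Nat.rec i (fun n x => max x (l n)) n
  have hjs : ∀ n, j (n + 1) = max (j n) (l n) := fun n => rfl
  have hj : Monotone j := monotone_nat_of_le_succ fun n => by rw [hjs]; exact le_max_left _ _
  have hjN : ∀ n, In N (j n) := by
    intro n
    induction n with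
    | zero => exact hi
    | succ n ih =>
      rw [hjs]
      rcases max_choice (j n) (l n) with h | h
      · rw [h]; exact ih
      · rw [h]; exact hlN n
  have hjc : ∀ x : L, In N x → ∃ n, x ≤ j n := by
    intro x hx
    obtain ⟨n, rfl⟩ : x ∈ Set.range l := hl ▸ hx
    exact ⟨n + 1, by rw [hjs]; exact le_max_right _ _⟩
  exact core H95.lb W.All.itp H63.itp2 H82.sla H97.af hRAPI hREP hKAP hRFM hREGX hPIR hDIX hch
    htop hTP hDP hN hT hO hV hE j hj hjN hjc X Y c x z hc hx hSx hz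

end Pool.Agent.Lib.MP_a78e1f_lc.H34
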